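import Pool.Agent.Lib.MP_cc4643_co.Count

/-! Every 6-connected graph has an `(s,t)`-triple for every pair of distinct vertices. -/

namespace Pool.Agent.Results.MP_cc4643_co.SixConnected

variable {V E : Type}

/-- the simple graph underlying the multigraph with edge set `E`, the edge `e` joining the two
vertices of the unordered pair `ends e` -/
def under (ends : E → Sym2 V) : SimpleGraph V := SimpleGraph.fromEdgeSet (Set.range ends)

/-- `K`-connected: at least `K + 1` vertices, and connected after deleting any set of fewer than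
`K` vertices -/
def KConnected (K : ℕ) (ends : E → Sym2 V) : Prop :=
  K + 1 ≤ Nat.card V ∧ ∀ D : Set V, D.ncard < K → ((under ends).induce Dᶜ).Connected

/-- the edges in `I` form a spanning tree: no loops, no parallel edges, and the graph formed by
them on the whole vertex set is a tree -/
def SpanningTree (ends : E → Sym2 V) (I : Set E) : Prop :=
  (∀ e ∈ I, ¬ (ends e).IsDiag) ∧ Set.InjOn ends I ∧
    (SimpleGraph.fromEdgeSet (ends '' I)).IsTree

/-- there is an `(s,t)`-triple: a total order on the vertices and edge-disjoint spanning trees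
`I`, `O` such that every `v ≠ t` has a larger neighbour in `I` and every `v ≠ s` has a smaller
neighbour in `O` -/
def HasTriple (ends : E → Sym2 V) (s t : V) : Prop :=
  ∃ (_ : LinearOrder V) (I O : Set E), SpanningTree ends I ∧ SpanningTree ends O ∧
    Disjoint I O ∧
    (∀ v, v ≠ t → ∃ (u : V) (e : E), e ∈ I ∧ ends e = s(v, u) ∧ v < u) ∧
    (∀ v, v ≠ s → ∃ (u : V) (e : E), e ∈ O ∧ ends e = s(v, u) ∧ u < v)

open Pool.Agent.Lib.MP_cc4643_co

/-- parent pointers along an increasing function give a spanning tree -/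
theorem tree_of_parent [Finite V] (p : V → ℝ) (t : V) (r : V → V)
    (h : ∀ v, v ≠ t → p v < p (r v)) :
    (SimpleGraph.fromEdgeSet {e | ∃ v, v ≠ t ∧ e = s(v, r v)}).IsTree := by
  classical
  have := Fintype.ofFinite V
  rw [SimpleGraph.isTree_iff_connected_and_card]
  have hadj : ∀ v, v ≠ t → (SimpleGraph.fromEdgeSet {e | ∃ v, v ≠ t ∧ e = s(v, r v)}).Adj v (r v) := by
    intro v hv
    rw [SimpleGraph.fromEdgeSet_adj]
    refine ⟨⟨v, hv, rfl⟩, ?_⟩
    intro h'
    have := h v hv
    rw [← h'] at this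
    exact lt_irrefl _ this
  constructor
  · -- connected
    have hreach : ∀ (n : ℕ) (v : V), (Finset.univ.filter (fun x => p v < p x)).card ≤ n →
        (SimpleGraph.fromEdgeSet {e | ∃ v, v ≠ t ∧ e = s(v, r v)}).Reachable v t := by
      intro n
      induction n with
      | zero =>
        intro v hv
        by_cases hvt : v = t
        · rw [hvt]
        · exfalso
          have h1 : r v ∈ Finset.univ.filter (fun x => p v < p x) :=
            Finset.mem_filter.2 ⟨Finset.mem_univ _, h v hvt⟩
          have := Finset.card_pos.2 ⟨_, h1⟩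
          omega
      | succ n ih =>
        intro v hv
        by_cases hvt : v = t
        · rw [hvt]
        · refine (hadj v hvt).reachable.trans (ih (r v) ?_)
          have h1 : Finset.univ.filter (fun x => p (r v) < p x) ⊂
              Finset.univ.filter (fun x => p v < p x) := by
            rw [Finset.ssubset_iff_of_subset]
            · refine ⟨r v, Finset.mem_filter.2 ⟨Finset.mem_univ _, h v hvt⟩, ?_⟩
              intro h2
              exact lt_irrefl _ (Finset.mem_filter.1 h2).2
            · intro x hx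
              exact Finset.mem_filter.2 ⟨Finset.mem_univ _, (h v hvt).trans
                (Finset.mem_filter.1 hx).2⟩
          have := Finset.card_lt_card h1
          omega
    have : Nonempty V := ⟨t⟩
    exact SimpleGraph.Connected.mk fun v w => (hreach _ v le_rfl).trans (hreach _ w le_rfl).symm
  · -- number of edges
    have h1 : (SimpleGraph.fromEdgeSet {e | ∃ v, v ≠ t ∧ e = s(v, r v)}).edgeSet =
        (fun v => s(v, r v)) '' {v | v ≠ t} := by
      rw [SimpleGraph.edgeSet_fromEdgeSet]
      ext e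
      constructor
      · rintro ⟨⟨v, hv, rfl⟩, _⟩
        exact ⟨v, hv, rfl⟩
      · rintro ⟨v, hv, rfl⟩
        refine ⟨⟨v, hv, rfl⟩, ?_⟩
        intro hd
        have h2 : v = r v := Sym2.mk_isDiag_iff.1 hd
        have := h v hv
        rw [← h2] at this
        exact lt_irrefl _ this
    rw [Nat.card_coe_set_eq, h1, Set.InjOn.ncard_image]
    · have h2 : ({v | v ≠ t} : Set V) = {t}ᶜ := rfl
      have h3 := Set.ncard_add_ncard_compl ({t} : Set V)
      rw [Set.ncard_singleton, ← h2] at h3
      omega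
    · intro v hv w hw hvw
      rcases Sym2.eq_iff.1 hvw with ⟨h2, _⟩ | ⟨h2, h3⟩
      · exact h2
      · have h4 := h v hv
        have h5 := h w hw
        rw [h3] at h4
        rw [← h2] at h5
        exact absurd h4 (not_lt.2 h5.le)

/-- the order theorem for simple graphs -/
theorem exists_order [Fintype V] [DecidableEq V] {G : SimpleGraph V} (hG : Cut6 G) {s t : V}
    (hst : s ≠ t) : ∃ (p : V → ℝ) (l r : V → V), Function.Injective p ∧
      (∀ v, v ≠ s → G.Adj v (l v) ∧ p (l v) < p v) ∧
      (∀ v, v ≠ t → G.Adj v (r v) ∧ p v < p (r v)) ∧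
      (∀ v w, v ≠ s → w ≠ t → s(v, l v) ≠ s(w, r w)) := by
  classical
  have hnb : ∀ v w : V, ∃ x, G.Adj v x ∧ x ≠ w := by
    intro v w
    by_contra hcon
    push Not at hcon
    have h1 := hG.deg v
    have h2 : Finset.univ.filter (fun x => G.Adj v x) ⊆ {w} := by
      intro x hx
      rw [Finset.mem_filter] at hx
      exact Finset.mem_singleton.2 (hcon x hx.2)
    have h3 := Finset.card_le_card h2
    rw [Finset.card_singleton] at h3
    omega
  obtain ⟨x, hsx, hxt⟩ := hnb s t
  obtain ⟨y, hty, hys⟩ := hnb t s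
  let R : Finset (Sym2 V) := {s(s, x), s(t, y)}
  let E' : Finset (Sym2 V) := insert s(s, t) (Finset.univ.filter (fun e => e ∈ G.edgeSet ∧ e ∉ R))
  obtain ⟨L, hLE, hLS, hLc, hL0⟩ := exists_laman hG E' R (by
    intro e he hd
    rcases Finset.mem_insert.1 he with rfl | he
    · exact hst (Sym2.mk_isDiag_iff.1 hd)
    · exact G.not_isDiag_of_mem_edgeSet (Finset.mem_filter.1 he).2.1 hd) (by
    intro e he hd
    simp only [R, Finset.mem_insert, Finset.mem_singleton] at he
    rcases he with rfl | rfl
    · exact hsx.ne (Sym2.mk_isDiag_iff.1 hd)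
    · exact hty.ne (Sym2.mk_isDiag_iff.1 hd)) Finset.card_le_two (by
    intro a b hab
    by_cases h : s(a, b) ∈ R
    · exact Or.inr h
    · exact Or.inl (Finset.mem_insert_of_mem (Finset.mem_filter.2 ⟨Finset.mem_univ _, hab, h⟩)))
    (Finset.mem_insert_self _ _)
  have hE'N : NL L := by
    intro e he hd
    rcases Finset.mem_insert.1 (hLE he) with rfl | he
    · exact hst (Sym2.mk_isDiag_iff.1 hd)
    · exact G.not_isDiag_of_mem_edgeSet (Finset.mem_filter.1 he).2.1 hd
  obtain ⟨p, l, r, hp, hpst, hg⟩ := laman_order _ Finset.univ L s t rfl hE'N (by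
    intro e _
    rw [Finset.mem_sym2_iff]
    intro a _
    exact Finset.mem_univ a) hLS (by rw [Finset.card_univ]; exact hLc) (Finset.mem_univ _)
    (Finset.mem_univ _) hst hL0
  have hpi : Function.Injective p := by
    intro a b hab
    exact hp (Finset.mem_coe.2 (Finset.mem_univ a)) (Finset.mem_coe.2 (Finset.mem_univ b)) hab
  -- extreme vertices
  have hmax : ∀ v, v ≠ t → p v < p t := by
    obtain ⟨m, _, hm⟩ := Finset.exists_max_image Finset.univ p ⟨s, Finset.mem_univ s⟩
    have hmt : m = t := by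
      by_contra hne
      by_cases hms : m = s
      · have := hm t (Finset.mem_univ t)
        rw [hms] at this
        linarith
      · have h1 := (hg m (Finset.mem_univ m) hms hne).2.2.2.2.2.1
        have h2 := hm (r m) (Finset.mem_univ _)
        linarith
    intro v hv
    rcases lt_or_eq_of_le (hm v (Finset.mem_univ v)) with h | h
    · rwa [hmt] at h
    · rw [hmt] at h
      exact absurd (hpi h) hv
  have hmin : ∀ v, v ≠ s → p s < p v := by
    obtain ⟨m, _, hm⟩ := Finset.exists_min_image Finset.univ p ⟨s, Finset.mem_univ s⟩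
    have hmt : m = s := by
      by_contra hne
      by_cases hms : m = t
      · have := hm s (Finset.mem_univ s)
        rw [hms] at this
        linarith
      · have h1 := (hg m (Finset.mem_univ m) hne hms).2.2.2.2.1
        have h2 := hm (l m) (Finset.mem_univ _)
        linarith
    intro v hv
    rcases lt_or_eq_of_le (hm v (Finset.mem_univ v)) with h | h
    · rwa [hmt] at h
    · rw [hmt] at h
      exact absurd (hpi h.symm) hv
  -- edges of L at inner vertices
  have hedge : ∀ v w : V, v ≠ s → v ≠ t → s(v, w) ∈ L → G.Adj v w ∧ s(v, w) ∉ R := by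
    intro v w hvs hvt h
    rcases Finset.mem_insert.1 (hLE h) with h1 | h1
    · rcases Sym2.eq_iff.1 h1 with ⟨h2, _⟩ | ⟨h2, _⟩
      · exact absurd h2 hvs
      · exact absurd h2 hvt
    · exact (Finset.mem_filter.1 h1).2
  refine ⟨p, fun v => if v = t then y else l v, fun v => if v = s then x else r v, hpi, ?_, ?_, ?_⟩
  · intro v hvs
    by_cases hvt : v = t
    · subst hvt
      simp only [if_true]
      exact ⟨hty, hmax y hty.ne'⟩
    · simp only [if_neg hvt]
      obtain ⟨_, _, g3, g4, g5, g6, g7⟩ := hg v (Finset.mem_univ v) hvs hvt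
      exact ⟨(hedge v _ hvs hvt g3).1, g5⟩
  · intro v hvt
    by_cases hvs : v = s
    · subst hvs
      simp only [if_true]
      exact ⟨hsx, hmin x hsx.ne'⟩
    · simp only [if_neg hvs]
      obtain ⟨_, _, g3, g4, g5, g6, g7⟩ := hg v (Finset.mem_univ v) hvs hvt
      exact ⟨(hedge v _ hvs hvt g4).1, g6⟩
  · intro v w hvs hwt
    by_cases hvt : v = t
    · subst hvt
      by_cases hws : w = s
      · subst hws
        simp only [if_true]
        intro h
        rcases Sym2.eq_iff.1 h with ⟨h2, _⟩ | ⟨h2, h3⟩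
        · exact hvs h2
        · exact hxt h2.symm
      · simp only [if_true, if_neg hws]
        intro h
        obtain ⟨_, _, g3, g4, g5, g6, g7⟩ := hg w (Finset.mem_univ w) hws hwt
        apply (hedge w _ hws hwt g4).2
        rw [← h]
        simp [R]
    · simp only [if_neg hvt]
      obtain ⟨_, _, g3, g4, g5, g6, g7⟩ := hg v (Finset.mem_univ v) hvs hvt
      by_cases hws : w = s
      · subst hws
        simp only [if_true]
        intro h
        apply (hedge v _ hvs hvt g3).2
        rw [h]
        simp [R]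
      · simp only [if_neg hws]
        obtain ⟨_, _, k3, k4, k5, k6, k7⟩ := hg w (Finset.mem_univ w) hws hwt
        intro h
        rcases Sym2.eq_iff.1 h with ⟨h2, h3⟩ | ⟨h2, h3⟩
        · subst h2
          rw [h3] at g5
          linarith
        · have := g7 (by rw [h3]; exact hws) (by rw [h3]; exact hwt)
          rw [h3] at this
          exact this h2.symm

theorem cut6_of_connected [Fintype V] [DecidableEq V] {ends : E → Sym2 V}
    (h : KConnected 6 ends) : Cut6 (under ends) := by
  obtain ⟨h1, h2⟩ := h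
  refine ⟨by rw [← Nat.card_eq_fintype_card]; exact h1, ?_⟩
  rintro Y Z ⟨y, hy⟩ hYZ ⟨x, hxY, hxZ⟩
  by_contra hcon
  have hlt : (↑(Z \ Y) : Set V).ncard < 6 := by
    rw [Set.ncard_coe_finset]
    have := Finset.card_le_card (Finset.sdiff_subset (s := Z) (t := Y))
    omega
  have hc := h2 (↑(Z \ Y) : Set V) hlt
  have hyc : y ∈ (↑(Z \ Y) : Set V)ᶜ := by simp [hy]
  have hxc : x ∈ (↑(Z \ Y) : Set V)ᶜ := by simp [hxZ]
  obtain ⟨w⟩ := hc.preconnected ⟨y, hyc⟩ ⟨x, hxc⟩
  have hmem : ∀ a b : ((↑(Z \ Y) : Set V)ᶜ : Set V),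
      ((under ends).induce (↑(Z \ Y) : Set V)ᶜ).Walk a b → a.1 ∈ Y → b.1 ∈ Y := by
    intro a b w
    induction w with
    | nil => exact id
    | @cons u v w hab _ ih =>
      intro ha
      apply ih
      have hadj : (under ends).Adj u.1 v.1 := hab
      rcases hYZ _ ha _ hadj with h3 | h3
      · exact h3
      · by_contra h4
        exact v.2 (by simp [h3, h4])
  exact hxY (hmem _ _ w hy)

/-- every 6-connected finite multigraph has an `(s,t)`-triple for all distinct vertices `s`, `t` -/
theorem result (V E : Type) [Finite V] [Finite E] (ends : E → Sym2 V)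
    (hconn : KConnected 6 ends) (s t : V) (hst : s ≠ t) : HasTriple ends s t := by
  classical
  have := Fintype.ofFinite V
  obtain ⟨p, l, r, hp, hl, hr, hd⟩ := exists_order (cut6_of_connected hconn) hst
  have hlift : ∀ v w, (under ends).Adj v w → ∃ e, ends e = s(v, w) := by
    intro v w h
    rw [under, SimpleGraph.fromEdgeSet_adj] at h
    exact h.1
  have hle : ∀ v, ∃ e, v ≠ s → ends e = s(v, l v) := by
    intro v
    by_cases hv : v = s
    · obtain ⟨e, _⟩ := hlift _ _ (hl t hst.symm).1
      exact ⟨e, fun h => absurd hv h⟩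
    · obtain ⟨e, he⟩ := hlift _ _ (hl v hv).1
      exact ⟨e, fun _ => he⟩
  have hre : ∀ v, ∃ e, v ≠ t → ends e = s(v, r v) := by
    intro v
    by_cases hv : v = t
    · obtain ⟨e, _⟩ := hlift _ _ (hr s hst).1
      exact ⟨e, fun h => absurd hv h⟩
    · obtain ⟨e, he⟩ := hlift _ _ (hr v hv).1
      exact ⟨e, fun _ => he⟩
  choose le hle using hle
  choose re hre using hre
  refine ⟨LinearOrder.lift' p hp, {e | ∃ v, v ≠ t ∧ re v = e}, {e | ∃ v, v ≠ s ∧ le v = e},
    ⟨?_, ?_, ?_⟩, ⟨?_, ?_, ?_⟩, ?_, ?_, ?_⟩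
  · rintro _ ⟨v, hv, rfl⟩ hdiag
    rw [hre v hv] at hdiag
    exact (hr v hv).1.ne (Sym2.mk_isDiag_iff.1 hdiag)
  · rintro _ ⟨v, hv, rfl⟩ _ ⟨w, hw, rfl⟩ h
    rw [hre v hv, hre w hw] at h
    rcases Sym2.eq_iff.1 h with ⟨h2, _⟩ | ⟨h2, h3⟩
    · rw [h2]
    · have h4 := (hr v hv).2
      have h5 := (hr w hw).2
      rw [h3] at h4
      rw [← h2] at h5
      exact absurd h4 (not_lt.2 h5.le)
  · have h1 : ends '' {e | ∃ v, v ≠ t ∧ re v = e} = {e | ∃ v, v ≠ t ∧ e = s(v, r v)} := by
      ext e
      constructor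
      · rintro ⟨_, ⟨v, hv, rfl⟩, rfl⟩
        exact ⟨v, hv, hre v hv⟩
      · rintro ⟨v, hv, rfl⟩
        exact ⟨_, ⟨v, hv, rfl⟩, hre v hv⟩
    rw [h1]
    exact tree_of_parent p t r (fun v hv => (hr v hv).2)
  · rintro _ ⟨v, hv, rfl⟩ hdiag
    rw [hle v hv] at hdiag
    exact (hl v hv).1.ne (Sym2.mk_isDiag_iff.1 hdiag)
  · rintro _ ⟨v, hv, rfl⟩ _ ⟨w, hw, rfl⟩ h
    rw [hle v hv, hle w hw] at h
    rcases Sym2.eq_iff.1 h with ⟨h2, _⟩ | ⟨h2, h3⟩
    · rw [h2]
    · have h4 := (hl v hv).2
      have h5 := (hl w hw).2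
      rw [h3] at h4
      rw [← h2] at h5
      exact absurd h4 (not_lt.2 h5.le)
  · have h1 : ends '' {e | ∃ v, v ≠ s ∧ le v = e} = {e | ∃ v, v ≠ s ∧ e = s(v, l v)} := by
      ext e
      constructor
      · rintro ⟨_, ⟨v, hv, rfl⟩, rfl⟩
        exact ⟨v, hv, hle v hv⟩
      · rintro ⟨v, hv, rfl⟩
        exact ⟨_, ⟨v, hv, rfl⟩, hle v hv⟩
    rw [h1]
    exact tree_of_parent (fun v => - p v) s l (fun v hv => neg_lt_neg (hl v hv).2)
  · rw [Set.disjoint_left]
    rintro _ ⟨v, hv, rfl⟩ ⟨w, hw, h⟩
    have h1 := congrArg ends h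
    rw [hle w hw, hre v hv] at h1
    exact hd w v hw hv h1
  · intro v hv
    exact ⟨r v, re v, ⟨v, hv, rfl⟩, hre v hv, (hr v hv).2⟩
  · intro v hv
    exact ⟨l v, le v, ⟨v, hv, rfl⟩, hle v hv, (hl v hv).2⟩

end Pool.Agent.Results.MP_cc4643_co.SixConnected
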